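import Pool.Agent.Run7.h152.SS.Main

/-!
# The standard conjecture of Hodge type lifts from the strata of a semistable reduction

It is known that the conjecture of Hodge type lifts from a smooth special fibre, because it is a
statement about signs. We prove that it lifts from the strata of a semistable special fibre, in all
dimensions and codimensions. Varieties without good reduction at any place where the conjecture is
known can now be treated, for instance varieties with totally degenerate reduction.

**Setting.** `P` is a smooth projective variety of dimension `n` with an ample divisor over a field
`k`, for instance an algebraically closed field of characteristic `p`. It is defined over a finitely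
generated field; let `v` be a discrete valuation of this field, such that `P` has a projective
strictly semistable model over the ring of `v` after a finite extension, to which the divisor
extends. Let `Y₀`, `Y₁`, `Y₂` be the disjoint unions of the components of the special fibre, of their
double and of their triple intersections. We assume that the components of `Y₀`, `Y₁` and
`Y₂` satisfy the standard conjectures: hard Lefschetz, the conjecture of Lefschetz type and the
conjecture of Hodge type (`Strata.IsGood`; nothing is assumed for the intersections of more than three
components). The restriction `ρ` and the Gysin map `τ` are the alternating sums of the pull-backs and
push-forwards (`Faces.res`, `Faces.gys`), with `ρ ρ = 0` and `ρ τ + τ ρ = 0`. A cycle `z` on `P` has a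
closure in a semistable model (over a finite extension; its strata are toric fibrations over the old
ones), and restrictions `z₀` to the components of the special fibre. They satisfy the conditions of
`Reduces`: the restrictions to `Y₁` agree, intersection numbers on `P` are sums of intersection
numbers on the components, and by the weight spectral sequence and the theorem of Deligne on weights
the homological triviality of cycles is related to the image of `τ`. For `Y₁ = ∅` this is the
specialization of cycles in the case of good reduction.

**Theorem.** If `P` has a semistable reduction in this sense then `P` satisfies the standard conjecture
of Hodge type. If `P` satisfies the conjecture of Lefschetz type then homological and numerical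
equivalence are the same for `P`, and for all varieties which are dominated by `P`.

Examples, for all `ℓ ≠ p`:

* abelian varieties `A` of any dimension over a field `F` of characteristic `p` with
  totally degenerate (purely toric) reduction at some place of `F`, and their products and powers: the
  strata are toric varieties, or iterated projective bundles and blow-ups of products of toric
  varieties, with algebraic cohomology and the Hodge-Riemann relations. Hence the standard conjecture of
  Hodge type and the conjecture D for all these abelian varieties; and for `A × G` if `G` has good
  reduction and satisfies the conjectures (for example `G` a surface, or a threefold with the conjecture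
  of Lefschetz type);
* more generally abelian varieties `A` with semistable reduction at some place of `F` with abelian part
  `B`, if the conjecture of Hodge type is true for `B` (for instance if `dim B ≤ 3`, or `B` is a power of
  an elliptic curve): the strata are toric fibrations over `B` with the cohomology of products. So the
  conjecture for abelian varieties with a place of positive toric rank is reduced to smaller dimensions.
* products of surfaces with totally degenerate reduction (K3 surfaces of type III, surfaces of general
  type with rational components).
* fourfolds with the conjecture of Lefschetz type: the conjecture of Hodge type is needed for the
  components `Y₀` only, since it is known in dimension at most three.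

**Proof.** Let `Λ` be the lowering operators of the strata, and let `ρ'` and `τ'` be the commutators
`[Λ, ρ]` and `[Λ, τ]`. Representation theory of `sl(2)` gives `[Λ, ρ'] = 0` and `w ρ' = ρ w` for the
Weyl operators `w`, and the same for `τ`, so that for the forms
`B (x, y) = tr (x * star y)`, positive definite on the algebraic classes of the strata, `τ'` is the
adjoint of `ρ` and `-ρ'` is the adjoint of `τ`. The operator `Δ = τ ρ' - τ' ρ` on the algebraic classes of
`Y₀` is self-adjoint and negative semidefinite with the kernel `ker ρ ∩ ker ρ'`. A class `z₀` in
`ker ρ` is the sum of a harmonic class `h` and of `Δ u`; the relation
`ρ Δ = (2 τ ρ' + ρ' τ) ρ` and positivity on `Y₁` and `Y₂` give `Δ u = τ a` with `ρ a = 0`.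
If `z` is primitive then `h` is primitive on each component, since the image of `τ` is orthogonal to
the harmonic classes. The number `deg (z * D ^ (n - 2 j) * z)` is the sum of the same numbers for the
components of `h`, which have the right sign, and `h = 0` implies that `z` is homologically trivial.
-/

set_option autoImplicit false

open CategoryTheory AlgebraicGeometry

universe u v u' v'

namespace Pool.Agent.Results.MP_361a6f_ag.SemistableReduction

open Pool.Agent.H914 Pool.Agent.W552 Pool.Agent.H281R3.HT Run7.h152.SP Run7.h152.SS VarClass Obj
  WeilCohomology

/-- **The conjecture of Hodge type and the conjecture D lift from the strata of a semistable
reduction.** -/
theorem result {k : Type u} [Field k] {𝒱 : VarClass k} {ops : CycleOps 𝒱}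
    (W : WeilCohomology.{u, v} ops)
    {k₀ : Type u'} [Field k₀] {𝒱₀ : VarClass k₀} {ops₀ : CycleOps 𝒱₀}
    (W₀ : WeilCohomology.{u', v'} ops₀) (P : Polarized 𝒱) (hP : SemistableReduction W W₀ P) :
    HodgeType W P.X P.D ∧
      (LefschetzType W P → ∀ V : 𝒱.Obj, Dominates W P.X V → HomEqNum W V) := by
  refine ⟨hP.hodgeType, fun hL V hV => ?_⟩
  obtain ⟨f, hf, -⟩ := exists_fr hL.1 hL.2.1 hL.2.2
  exact (homEqNum_of_hodge hf hP.hodgeType).image hV

end Pool.Agent.Results.MP_361a6f_ag.SemistableReduction
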