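import Pool.Agent.Run7.h192.Sgn.Main

/-!
# A zero-one law for the signatures of the standard conjecture of Hodge type

Let `X` be a smooth projective variety over a field of any characteristic, `W` a Weil cohomology
theory and `D` a divisor on `X` of positive degree with the hard Lefschetz property (an ample one)
for which the standard conjecture of Lefschetz type holds; for example let `X` be an abelian variety,
or a product of abelian varieties, curves and surfaces. Let `Q` be any power of `X` (with the sum of the
pull-backs of `D`), `d` its dimension and `b` the sum of its Betti numbers. For a variety `Y` with a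
divisor let `sig_i (Y)` be the signature of the pairing of the standard conjecture of Hodge type on the
primitive cycles of codimension `i`, and let `pos (Y)` and `neg (Y)` be the numbers of the positive and of
the negative squares of these pairings in all codimensions `i ≤ dim Y / 2`.

Theorem. The number `pos (Q ^ (2 n + 2)) + neg (Q ^ (2 n + 2))` is the rank of the group of the cycles of
the middle codimension on `Q ^ (2 n + 2)` modulo numerical equivalence, and it is at least
`b ^ (2 n + 2) / (n + 2) ^ (b ^ 2)`. Moreover, one of the following holds (if the conjecture is true for
all powers of `Q` then all squares are positive and 2 is impossible).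

1. The standard conjecture of Hodge type holds for `Q` (modulo numerical equivalence).
2. There is a codimension `j`, `1 ≤ j ≤ d / 2`, such that with `c = b - 2 (d - 2 j + 1)` we have, for all `n`
   and all codimensions `i`,

     `|sig_i (Q ^ (n + 1))| ≤ 2 c ^ (n + 1)`,   `|sig_i (R × Q ^ (n + 1))| ≤ 2 b(R) c ^ (n + 1)`

   for all varieties `R` with a divisor as above, and `|pos - neg| ≤ c ^ (2 n + 2)` on `Q ^ (2 n + 2)`. So
   the signatures are exponentially smaller than the ranks: asymptotically **exactly one half** of the
   squares is positive.

Therefore the conjecture of Hodge type is either true for all powers of `X`, or it fails for some power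
`Q`, and then it fails on the powers of `Q` as badly as possible. If on ONE power `Q ^ (n + 1)`, in ONE
codimension, the signature is larger than `2 (b - 2) ^ (n + 1)`, an exponentially small proportion of the
rank, then the conjecture is true for `Q`, in all codimensions.

Proof. Let `z` be a primitive cycle on `Q` of codimension `j` with a negative square. The classes
`z_i = L ^ i z` and `w_i = L ^ (i + j) 1`, `0 ≤ i ≤ d - 2 j`, are algebraic, orthogonal for the form
`B (x, y) = tr (x * y)` of Hodge and Riemann on the cohomology (`*` is the algebraic star operator), and
have negative and positive squares. The operator `J_i (x) = B (w_i, x) z_i - B (z_i, x) w_i` is algebraic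
and preserves the degree, and on the plane of `z_i` and `w_i` it multiplies the form by the negative number
`B (z_i, z_i) B (w_i, w_i)`. Let `R` be the projector onto the orthogonal complement of all these planes;
its rank is `c`. The complement of `R ⊗ ⋯ ⊗ R` on the cohomology of `Q ^ (n + 1)` is the orthogonal sum of the
ranges of algebraic projectors `1 ⊗ ⋯ ⊗ Q_i ⊗ R ⊗ ⋯ ⊗ R`, on each of which the algebraic operator
`1 ⊗ ⋯ ⊗ J_i ⊗ R ⊗ ⋯ ⊗ R` changes the sign of the form; so these parts do not contribute to the signature of
the form on the algebraic classes of a given degree, and the contribution of `R ⊗ ⋯ ⊗ R` is at most its rank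
`c ^ (n + 1)`. The signatures of the forms in two consecutive degrees give the signature on the primitive
classes. The lower bound for the rank is the growth theorem of the starting library (`Y163`, `R940`).
-/

set_option autoImplicit false

open CategoryTheory AlgebraicGeometry

universe u v

namespace Pool.Agent.Results.MP_361a6f_ag.SignatureZeroOneLaw

open Pool.Agent.H914 Pool.Agent.H281R3.HT Pool.Agent.Run7.h192.Sgn
open Pool.Agent.W534 (numRank)

/-- **The zero-one law for the signatures of the conjecture of Hodge type.** For every power `Q` of
the variety `P.X`: the number of all squares on `Q ^ (2 n + 2)` is the rank of the cycles of the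
middle codimension modulo numerical equivalence and grows like `b ^ (2 n + 2)` up to a polynomial
factor; and the conjecture of Hodge type holds for `Q`, or all signatures on the powers of `Q` are
bounded by the powers of a smaller number. -/
theorem result {k : Type u} [Field k] {𝒱 : VarClass k} {ops : CycleOps 𝒱}
    (W : WeilCohomology.{u, v} ops) (P : Polarized 𝒱) (h : IsLefschetz W P) (κ : ℕ) :
    (∀ n, posSq W (sqPol ops (pwPol ops P κ) n) + negSq W (sqPol ops (pwPol ops P κ) n) =
        numRank ops (sqPol ops (pwPol ops P κ) n).X ((n + 1) * (pwPol ops P κ).X.dim) ∧
      betti W (pwPol ops P κ).X ^ (2 * n + 2) ≤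
        (posSq W (sqPol ops (pwPol ops P κ) n) + negSq W (sqPol ops (pwPol ops P κ) n)) *
          (n + 2) ^ (betti W (pwPol ops P κ).X ^ 2)) ∧
    (HodgeNum W (pwPol ops P κ) ∨ ∃ j, 1 ≤ j ∧ 2 * j ≤ (pwPol ops P κ).X.dim ∧
      Balanced W (pwPol ops P κ)
        (betti W (pwPol ops P κ).X - 2 * ((pwPol ops P κ).X.dim - 2 * j + 1))) :=
  ⟨(main (isLefschetz_pw h κ)).1, (main (isLefschetz_pw h κ)).2.1⟩

end Pool.Agent.Results.MP_361a6f_ag.SignatureZeroOneLaw
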